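import Pool.Agent.Lib.MP_f2d99b_co.Shadow

namespace Pool.Agent.Results.MP_f2d99b_co.AngleField

open Pool.Agent.Lib.MP_f2d99b_co Set Complex
open scoped Real

/-- Cube, dodecahedron, icosahedron: vertex set, the number `n` such that the angle defect at a
vertex is `2π / n`, and the surface area for edge length `1`. -/
def solids : Set (Set E3 × ℕ × ℝ) :=
  {(cubeV, 4, 6), (dodecaV, 10, 15 / Real.tan (π / 5)), (icosaV, 6, 5 * √3)}

/-- For a common net, the ratio of the surface areas is `|x| ^ 2` for some `x` in the field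
generated by the two roots of unity and the numbers `exp (2 i θ)`, `θ` a turning angle of the
boundary polygon. -/
theorem result : ∀ A ∈ solids, ∀ B ∈ solids, ∀ P : Set ℂ, IsNetSim A.1 P → IsNetSim B.1 P →
    ∀ (m : ℕ) (z : ℕ → ℂ), 3 ≤ m → z m = z 0 →
    InjOn (fun x : ℕ × ℝ => z x.1 + x.2 • (z (x.1 + 1) - z x.1)) (Iio m ×ˢ Ico 0 1) →
    frontier P = ⋃ i < m, segment ℝ (z i) (z (i + 1)) →
    ∃ x ∈ Subfield.closure ({exp (2 * π * I / A.2.1), exp (2 * π * I / B.2.1)} ∪
      {y | ∃ i, i + 1 < m ∧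
        y = exp (2 * arg ((z (i + 2) - z (i + 1)) / (z (i + 1) - z i)) * I)}),
      ‖x‖ ^ 2 = A.2.2 / B.2.2 := by
  have h : ∀ A ∈ solids, Shadow A.1 A.2.1 A.2.2 := by
    rintro A (rfl | rfl | rfl)
    exacts [cube_shadow, dodeca_shadow, icosa_shadow]
  intro A hA B hB P h1 h2 m z h3 h4 h5 h6
  exact (h A hA).norm (h B hB) h1 h2 (poly_of_param h1.choose_spec.choose_spec.2 h3 h4 h5 h6)

end Pool.Agent.Results.MP_f2d99b_co.AngleField
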