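import Pool.Agent.Lib.MP_f2d99b_co.Edge4

namespace Pool.Agent.Results.MP_f2d99b_co.EdgeToEdge

open Pool.Agent.Lib.MP_f2d99b_co

/-- If one polygon folds to two different solids among cube, dodecahedron and icosahedron, then for
every list of vertices of its boundary the two foldings have together at least six points where a
vertex is glued to a boundary point that is not a vertex. -/
theorem result : ∀ V ∈ ({cubeV, dodecaV, icosaV} : Set (Set E3)),
    ∀ W ∈ ({cubeV, dodecaV, icosaV} : Set (Set E3)), V ≠ W →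
    ∀ (P : Set ℂ) (f g : ℂ → E3), FoldsSim V P f → FoldsSim W P g →
    ∀ (m : ℕ) (z : ℕ → ℂ), Bdry P m z →
      6 ≤ (mixedPts P m z f).encard + (mixedPts P m z g).encard := by
  rintro V (rfl | rfl | rfl) W (rfl | rfl | rfl) h P f g hf hg m z hz
  · exact absurd rfl h
  · exact cube_ze.six dodeca_ze 29 rfl rfl (by norm_num) rfl rfl hf hg hz
  · exact cube_ze.six icosa_ze 41 rfl rfl (by norm_num) rfl rfl hf hg hz
  · exact add_comm (G := ℕ∞) _ _ ▸ cube_ze.six dodeca_ze 29 rfl rfl (by norm_num) rfl rfl hg hf hz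
  · exact absurd rfl h
  · exact dodeca_ze.six icosa_ze 41 rfl rfl (by norm_num) rfl rfl hf hg hz
  · exact add_comm (G := ℕ∞) _ _ ▸ cube_ze.six icosa_ze 41 rfl rfl (by norm_num) rfl rfl hg hf hz
  · exact add_comm (G := ℕ∞) _ _ ▸ dodeca_ze.six icosa_ze 41 rfl rfl (by norm_num) rfl rfl hg hf hz
  · exact absurd rfl h

/-- No common net is bounded by a closed chain of segments of equal length. -/
theorem equilateral : ∀ V ∈ ({cubeV, dodecaV, icosaV} : Set (Set E3)),
    ∀ W ∈ ({cubeV, dodecaV, icosaV} : Set (Set E3)), V ≠ W →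
    ∀ (P : Set ℂ) (f g : ℂ → E3), FoldsSim V P f → FoldsSim W P g →
    ∀ (m : ℕ) (z : ℕ → ℂ), Bdry P m z → ¬ ∃ δ : ℝ, ∀ i < m, ‖z (i + 1) - z i‖ = δ := by
  rintro V hV W hW h P f g hf hg m z hz ⟨δ, hδ⟩
  have := result V hV W hW h P f g hf hg m z hz
  rw [mixed_empty_three hV hz hf hδ, mixed_empty_three hW hz hg hδ] at this
  simp at this

end Pool.Agent.Results.MP_f2d99b_co.EdgeToEdge
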