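import Pool.Agent.Lib.MP_f2d99b_co.Platonic

namespace Pool.Agent.Results.MP_f2d99b_co.Octahedron

open Pool.Agent.Lib.MP_f2d99b_co

/-- The regular octahedron has no common net with the cube, the regular dodecahedron or the
regular icosahedron. -/
theorem result : ∀ W ∈ ({cubeV, dodecaV, icosaV} : Set (Set E3)),
    ¬ ∃ P : Set ℂ, IsNetSim octaV P ∧ IsNetSim W P := by
  rintro W (rfl | rfl | rfl)
  exacts [no_cube, no_dodeca, no_icosa]

end Pool.Agent.Results.MP_f2d99b_co.Octahedron
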