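import Pool.Agent.Lib.MP_f2d99b_co.Zip4

namespace Pool.Agent.Results.MP_f2d99b_co.ZipperPairs

open Pool.Agent.Lib.MP_f2d99b_co

/-- If one polygon folds to two different solids among cube, dodecahedron and icosahedron, then
the two cut trees have together at least six points of odd degree. -/
theorem result : ∀ V ∈ ({cubeV, dodecaV, icosaV} : Set (Set E3)),
    ∀ W ∈ ({cubeV, dodecaV, icosaV} : Set (Set E3)), V ≠ W →
    ∀ (P : Set ℂ) (f g : ℂ → E3), FoldsSim V P f → FoldsSim W P g →
      6 ≤ (oddPts (f '' frontier P)).encard + (oddPts (g '' frontier P)).encard := by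
  rintro V (rfl | rfl | rfl) W (rfl | rfl | rfl) h P f g hf hg
  · exact absurd rfl h
  · exact cube_zd.six dodeca_zd 29 rfl rfl (by norm_num) rfl rfl hf hg
  · exact cube_zd.six icosa_zd 41 rfl rfl (by norm_num) rfl rfl hf hg
  · exact add_comm (G := ℕ∞) _ _ ▸ cube_zd.six dodeca_zd 29 rfl rfl (by norm_num) rfl rfl hg hf
  · exact absurd rfl h
  · exact dodeca_zd.six icosa_zd 41 rfl rfl (by norm_num) rfl rfl hf hg
  · exact add_comm (G := ℕ∞) _ _ ▸ cube_zd.six icosa_zd 41 rfl rfl (by norm_num) rfl rfl hg hf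
  · exact add_comm (G := ℕ∞) _ _ ▸ dodeca_zd.six icosa_zd 41 rfl rfl (by norm_num) rfl rfl hg hf
  · exact absurd rfl h

end Pool.Agent.Results.MP_f2d99b_co.ZipperPairs
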